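import Mathlib
import Pool.Agent.N119.PS.Stm

set_option autoImplicit false

/-!
# The shadow lemma (upper bound), project PSC (helper119)
-/

namespace Pool.Agent.N655.PSC

open Pool.Agent.N119.PS Pool.Agent.H472R3 Pool.Agent.H67R3.FSR Pool.Agent.H67R4.SR MeasureTheory
  Topology Filter
open scoped ENNReal NNReal

variable {N : ℕ}

/-- the critical exponent is not negative -/
theorem critExp_nonneg (A : FTree N) : 0 ≤ critExp A :=
  Real.sInf_nonneg fun _ hs => hs.1

/-- the ends whose ray from the base vertex can be preceded by `g` -/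
def E (g : FreeGroup (Fin N)) : Set (Bd N) := {ζ | g.toWord.getLast? ≠ some (inv' (ζ.1 1))}

theorem mem_E (g : FreeGroup (Fin N)) (ζ : Bd N) :
    ζ ∈ E g ↔ g.toWord.getLast? ≠ some (inv' (ζ.1 1)) := Iff.rfl

theorem measurableSet_E (g : FreeGroup (Fin N)) : MeasurableSet (E g) := by
  have h1 : IsOpen {a : Lt N | g.toWord.getLast? ≠ some (inv' a)} := isOpen_discrete _
  exact (h1.preimage (continuous_eval (1 : FreeGroup (Fin N)))).measurableSet

theorem mem_of_ray {g : FreeGroup (Fin N)} {ζ : Bd N} (h : ray ζ g.norm = g) :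
    g⁻¹ • ζ ∈ E g := by
  rw [mem_E, Bd.smul_apply, inv_inv, mul_one]
  intro hl
  have h1 := ray_word ζ g.norm
  rw [h] at h1
  have h2 : FreeGroup.IsReduced (g.toWord ++ [ζ.1 g]) := by
    rw [← h1]
    exact FreeGroup.isReduced_toWord
  have h3 := (List.isChain_append.mp h2).2.2 (inv' (ζ.1 g)) hl (ζ.1 g) (by simp)
  rw [reduced_iff, inv'_inv'] at h3
  exact h3 rfl

theorem t (h : S_BUS) : S_SHA := by
  intro N A hA x C hC ν hν g
  have h0 : 0 ≤ critExp A := critExp_nonneg A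
  have h1 : {ζ : Bd N | ray ζ g.norm = g} ⊆ (fun ζ : Bd N => g⁻¹ • ζ) ⁻¹' E g :=
    fun ζ hζ => mem_of_ray hζ
  have h2 : ν x ((fun ζ : Bd N => g⁻¹ • ζ) ⁻¹' E g) = ν (g⁻¹ • x) (E g) := by
    rw [← hν.equivariant g⁻¹ x, Measure.map_apply (continuous_smul_bd g⁻¹).measurable
      (measurableSet_E g)]
  have h3 : ν (g⁻¹ • x) (E g) = ∫⁻ ξ in E g,
      ENNReal.ofReal (Real.exp (-critExp A * buse A ξ (g⁻¹ • x) x)) ∂ν x := by
    rw [hν.conformal x (g⁻¹ • x), withDensity_apply _ (measurableSet_E g)]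
  have h4 : ∫⁻ ξ in E g, ENNReal.ofReal (Real.exp (-critExp A * buse A ξ (g⁻¹ • x) x)) ∂ν x ≤
      ∫⁻ ξ in E g, ENNReal.ofReal (Real.exp (critExp A * (2 * C - (lenFn A x).L g))) ∂ν x := by
    refine setLIntegral_mono' (measurableSet_E g) fun ξ hξ => ?_
    apply ENNReal.ofReal_le_ofReal
    apply Real.exp_le_exp.2
    have h5 := (h N A hA x C hC).1 ξ g hξ
    have h6 := mul_le_mul_of_nonneg_left h5 h0
    linarith
  calc ν x {ζ | ray ζ g.norm = g} ≤ ν x ((fun ζ : Bd N => g⁻¹ • ζ) ⁻¹' E g) := measure_mono h1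
    _ = ν (g⁻¹ • x) (E g) := h2
    _ = _ := h3
    _ ≤ _ := h4
    _ = ENNReal.ofReal (Real.exp (critExp A * (2 * C - (lenFn A x).L g))) * ν x (E g) := by
        rw [setLIntegral_const]
    _ ≤ ENNReal.ofReal (Real.exp (critExp A * (2 * C - (lenFn A x).L g))) * ν x Set.univ := by
        gcongr
        exact Set.subset_univ _

end Pool.Agent.N655.PSC
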